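import Pool.Agent.R215.LP.Oper

set_option autoImplicit false
open MeasureTheory Filter Topology Set Metric
open scoped ENNReal NNReal ContDiff

/-! MP_8e48cc_an, Q1: the answer is negative already for the weight `w = 1`
(`n = 6`, `p = 6/5`, `ϰ = n / (n - p) = 5/4`). -/

namespace Pool.Agent.Results.MP_8e48cc_an.NoRepresentative

/-- `A : ℝⁿ × ℝⁿ → ℝⁿ` is an admissible nonlinearity with exponent `p` (weight `w = 1`) -/
structure IsAdmissible {n : ℕ} (p : ℝ)
    (A : EuclideanSpace ℝ (Fin n) → EuclideanSpace ℝ (Fin n) → EuclideanSpace ℝ (Fin n)) :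
    Prop where
  measurable : ∀ h, Measurable fun x => A x h
  continuous : ∀ x, Continuous (A x)
  bounds : ∃ α β : ℝ, 0 < α ∧ α ≤ β ∧ (∀ x h, α * ‖h‖ ^ p ≤ inner ℝ (A x h) h) ∧
    ∀ x h, ‖A x h‖ ≤ β * ‖h‖ ^ (p - 1)
  monotone : ∀ x h₁ h₂, h₁ ≠ h₂ → 0 < inner ℝ (A x h₁ - A x h₂) (h₁ - h₂)
  homogeneous : ∀ x (l : ℝ) h, A x (l • h) = (l * |l| ^ (p - 2)) • A x h

/-- `u` and `V` are in `L^p_loc(Ω)` and `V` is the distributional gradient of `u` in `Ω`:
`u ∈ W^{1,p}_loc(Ω)` and `∇u = V` -/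
structure IsSobolevLoc {n : ℕ} (p : ℝ) (Ω : Set (EuclideanSpace ℝ (Fin n)))
    (u : EuclideanSpace ℝ (Fin n) → ℝ)
    (V : EuclideanSpace ℝ (Fin n) → EuclideanSpace ℝ (Fin n)) : Prop where
  memLp : ∀ K ⊆ Ω, IsCompact K → MemLp u (ENNReal.ofReal p) (volume.restrict K)
  memLp_grad : ∀ K ⊆ Ω, IsCompact K → MemLp V (ENNReal.ofReal p) (volume.restrict K)
  weak : ∀ φ : EuclideanSpace ℝ (Fin n) → ℝ, ContDiff ℝ ∞ φ → HasCompactSupport φ →
    tsupport φ ⊆ Ω → ∀ i, ∫ x, u x * fderiv ℝ φ x (EuclideanSpace.single i 1) = -∫ x, V x i * φ x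

/-- `u ∈ W^{1,p}_loc(Ω)` is a supersolution of `-div A(x, ∇u) = 0` in `Ω` -/
def IsSupersolution {n : ℕ} (p : ℝ) (Ω : Set (EuclideanSpace ℝ (Fin n)))
    (A : EuclideanSpace ℝ (Fin n) → EuclideanSpace ℝ (Fin n) → EuclideanSpace ℝ (Fin n))
    (u : EuclideanSpace ℝ (Fin n) → ℝ) : Prop :=
  ∃ V, IsSobolevLoc p Ω u V ∧ ∀ φ : EuclideanSpace ℝ (Fin n) → ℝ, ContDiff ℝ ∞ φ →
    HasCompactSupport φ → tsupport φ ⊆ Ω → (∀ x, 0 ≤ φ x) →
      0 ≤ ∫ x, fderiv ℝ φ x (A x (V x))

/-- the essential lower limit of `u` at `x`: the supremum over `r > 0` of the essential infimum of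
`u` over `B(x, r)` (`u` is defined in the whole space) -/
noncomputable def essLowerLimit {n : ℕ} (u : EuclideanSpace ℝ (Fin n) → ℝ)
    (x : EuclideanSpace ℝ (Fin n)) : EReal :=
  ⨆ (r : ℝ) (_ : 0 < r), essInf (fun y => (u y : EReal)) (volume.restrict (ball x r))

/-- the conclusion of Q1 for the function `u` on the whole space -/
def HasGoodRepresentative {n : ℕ} (u : EuclideanSpace ℝ (Fin n) → ℝ) : Prop :=
  ∃ v : EuclideanSpace ℝ (Fin n) → EReal, LowerSemicontinuous v ∧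
    (∀ᵐ x ∂(volume : Measure (EuclideanSpace ℝ (Fin n))), v x = (u x : EReal)) ∧
    ∀ x, v x = essLowerLimit u x ∧
      Tendsto (fun r : ℝ => ((⨍ y in ball x r, u y : ℝ) : EReal)) (𝓝[>] 0) (𝓝 (v x))

open Pool.Agent.R215.LP

theorem sob : IsSobolevLoc (6 / 5) (univ : Set (EuclideanSpace ℝ (Fin 6))) u V := by
  have e1 : ENNReal.ofReal (6 / 5) = 6 / 5 := by
    rw [ENNReal.ofReal_div_of_pos (by norm_num)]
    norm_num
  have hK : ∀ K : Set E, IsCompact K → ∃ R, K ⊆ ball 0 R := fun K hK => by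
    obtain ⟨R, hR⟩ := hK.isBounded.subset_ball 0
    exact ⟨R, hR⟩
  refine ⟨fun K _ hc => ?_, fun K _ hc => ?_, fun φ hφ hc _ i => ?_⟩
  · obtain ⟨R, hR⟩ := hK K hc
    rw [e1]
    exact (memLp_u R).mono_measure (Measure.restrict_mono hR le_rfl)
  · obtain ⟨R, hR⟩ := hK K hc
    rw [e1]
    exact (memLp_V R).mono_measure (Measure.restrict_mono hR le_rfl)
  · exact weak_u i (hφ.of_le (by norm_cast)) hc

theorem super : IsSupersolution (6 / 5) (univ : Set (EuclideanSpace ℝ (Fin 6)))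
    (fun _ => op) u := by
  refine ⟨V, sob, fun φ hφ hc _ h0 => ?_⟩
  have hφ1 : ContDiff ℝ 1 φ := hφ.of_le (by norm_cast)
  have h1 : ∀ X, fderiv ℝ φ X (op (V X)) = -∑ i, G i X * fderiv ℝ φ X (e i) := by
    intro X
    have h2 : op (V X) = ∑ i, (-(G i X)) • e i := by
      rw [op_V]
      ext k
      rw [WithLp.ofLp_sum, Finset.sum_apply, Finset.sum_eq_single k]
      · simp [e]
      · intro b _ hb
        simp [e, hb.symm]
      · intro h
        exact absurd (Finset.mem_univ _) h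
    rw [h2, map_sum, ← Finset.sum_neg_distrib]
    refine Finset.sum_congr rfl fun i _ => ?_
    rw [map_smul, smul_eq_mul]
    ring
  simp only [h1]
  rw [integral_neg, integral_finsetSum]
  · have := weak_G hφ1 hc h0
    linarith
  · intro i _
    have hd : Continuous fun X => fderiv ℝ φ X (e i) :=
      (hφ1.continuous_fderiv one_ne_zero).clm_apply continuous_const
    have hdc : HasCompactSupport fun X => fderiv ℝ φ X (e i) := hc.fderiv_apply ℝ (e i)
    exact (locInt_G i).integrable_smul_right_of_hasCompactSupport hd hdc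

theorem adm : IsAdmissible (n := 6) (6 / 5) fun _ => op := by
  refine ⟨fun h => measurable_const, fun _ => continuous_op,
    ⟨1, 6, one_pos, by norm_num, fun _ h => ?_, fun _ h => op_bound h⟩,
    fun _ a b hab => op_mono hab, fun _ l h => op_smul l h⟩
  rw [one_mul]
  exact op_coer h

theorem bad : ¬ HasGoodRepresentative u := by
  rintro ⟨v, _, _, hv⟩
  obtain ⟨h1, h2⟩ := hv 0
  have h3 : v 0 ≤ 0 := by
    rw [h1]
    exact iSup₂_le fun r hr => essInf_le hr
  have h4 := h2.comp tendsto_rho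
  have h5 : Tendsto (fun j => ((⨍ X in ball (0 : E) (20 * rho j), u X : ℝ) : EReal)) atTop
      (𝓝 ⊤) := EReal.tendsto_coe_nhds_top_iff.2 avg_tendsto
  have h6 : v 0 = ⊤ := tendsto_nhds_unique h4 h5
  rw [h6] at h3
  exact absurd h3 (by simp)

/-- **Q1 is false.**  Take `n = 6`, `w = 1` and `p = 6/5`, which satisfies `p ≤ 1 + 1/ϰ` for
`ϰ = n / (n - p)`.  There are an admissible `A` and a supersolution `u` of
`-div A(x, ∇u) = 0` in the whole space such that no lower semicontinuous representative of `u`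
is at every point equal to the essential lower limit of `u` and to the limit of its averages. -/
theorem result : ∃ (n : ℕ) (p ϰ : ℝ), 2 ≤ n ∧ 1 < p ∧ p < n ∧ ϰ = n / (n - p) ∧
    p ≤ 1 + 1 / ϰ ∧
    ∃ (A : EuclideanSpace ℝ (Fin n) → EuclideanSpace ℝ (Fin n) → EuclideanSpace ℝ (Fin n))
      (u : EuclideanSpace ℝ (Fin n) → ℝ),
      IsAdmissible p A ∧ IsSupersolution p univ A u ∧ ¬ HasGoodRepresentative u := by
  refine ⟨6, 6 / 5, 5 / 4, by norm_num, by norm_num, by norm_num, by norm_num, by norm_num,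
    fun _ => op, u, adm, super, bad⟩

end Pool.Agent.Results.MP_8e48cc_an.NoRepresentative
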